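import Pool.Agent.helper48.CG.Spec

/-! # Module WPC of project cg -/

set_option autoImplicit false

namespace Pool.Agent.helper48.CG

open Equiv Finset Function Pool.Agent.helper48.PP

theorem WPC_binom (θ : ℝ) (m q : ℕ) (h : m ≤ q) :
    (1 + θ) ^ m = ∑ j ∈ Finset.range (q + 1), (m.choose j : ℝ) * θ ^ j := by
  have h1 : (1 + θ) ^ m = ∑ j ∈ Finset.range (m + 1), (m.choose j : ℝ) * θ ^ j := by
    rw [add_comm, add_pow]
    refine Finset.sum_congr rfl fun j _ => ?_
    rw [one_pow]
    ring
  rw [h1]
  refine Finset.sum_subset ?_ ?_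
  · intro j hj
    rw [Finset.mem_range] at hj ⊢
    omega
  · intro j _ hj
    rw [Finset.mem_range] at hj
    rw [Nat.choose_eq_zero_of_lt (by omega)]
    simp

theorem WPC (hHG : HG_stmt) : WPC_stmt := by
  intro b y θ hθ
  have hc : ∀ q (v : Perm (Fin q)), (corn y v).card ≤ q := by
    intro q v
    have := Finset.card_le_univ (corn y v)
    simpa using this
  constructor
  · intro q
    have h1 : wt y θ q = ∑ v ∈ avs y q, ∑ j ∈ Finset.range (q + 1),
        ((corn y v).card.choose j : ℝ) * θ ^ j := by
      unfold wt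
      exact Finset.sum_congr rfl fun v _ => WPC_binom θ _ q (hc q v)
    rw [h1, Finset.sum_comm]
    refine Finset.sum_congr rfl fun j _ => ?_
    unfold pc
    push_cast
    rw [Finset.sum_mul]
  · intro q k
    have hsplit : ((avs y q).filter fun v => (corn y v).card ≤ k).card +
        ((avs y q).filter fun v => ¬ (corn y v).card ≤ k).card = (avs y q).card :=
      Finset.card_filter_add_card_filter_not _
    have h2 : ((avs y q).card : ℝ) - (((avs y q).filter fun v => (corn y v).card ≤ k).card : ℝ) =
        (((avs y q).filter fun v => ¬ (corn y v).card ≤ k).card : ℝ) := by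
      rw [← hsplit]
      push_cast
      ring
    rw [h2]
    unfold wt
    have h1θ : (1 : ℝ) ≤ 1 + θ := by linarith
    calc (((avs y q).filter fun v => ¬ (corn y v).card ≤ k).card : ℝ) * (1 + θ) ^ (k + 1)
        = ∑ _v ∈ (avs y q).filter fun v => ¬ (corn y v).card ≤ k, (1 + θ) ^ (k + 1) := by
          rw [Finset.sum_const, nsmul_eq_mul]
      _ ≤ ∑ v ∈ (avs y q).filter fun v => ¬ (corn y v).card ≤ k, (1 + θ) ^ (corn y v).card := by
          refine Finset.sum_le_sum fun v hv => ?_
          rw [Finset.mem_filter] at hv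
          exact pow_le_pow_right₀ h1θ (by omega)
      _ ≤ ∑ v ∈ avs y q, (1 + θ) ^ (corn y v).card := by
          refine Finset.sum_le_sum_of_subset_of_nonneg (Finset.filter_subset _ _) ?_
          intro v _ _
          positivity

end Pool.Agent.helper48.CG
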